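import Pool.Agent.HZ.ClfM

/-!
# The structure of irreducible local systems on punctured spheres with simple loops of finite order

Let `ρ` be an irreducible representation of rank `r` of the fundamental group `F` of a disc (or a
sphere) with `n` punctures such that the eigenvalues of `ρ γ` are roots of unity for all simple
closed curves `γ`.

(a) If more than `N(r)` of the local monodromies `ρ x_i` have an eigenspace of dimension prime to
`r`, or `r` is prime and more than `N(r)` of them are not scalar, then the monodromy group is
virtually abelian.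

(b) In all cases there is a set `S` of at most `N(r)` punctures such that `ρ` is induced from
`β ⊗ α`, where `α` and `β` are representations of a subgroup `H` of finite index, the image of `α`
is finite, and `β` is trivial on the normal subgroup `K ≤ H` generated by the loops around the
punctures outside `S`; so `β` is a representation of `H/K`, a subgroup of the fundamental group
`F/K` of the disc with the punctures in `S`.  The eigenvalues of `β h` are roots of unity if `h` is
conjugate to a power of a simple closed curve.  The rank of `β` divides the dimensions of all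
eigenspaces of the `ρ x_i`, `i ∉ S`, and is at most `r/2` if more than `N(r)` of the `ρ x_i` are
not scalar.
-/

namespace Pool.Agent.Results.MP_0707f5_ag.CliffordStructure

open Pool.Agent.HZ Module

open Classical in
theorem result (r : ℕ) (hr : 0 < r) : ∃ N : ℕ, ∀ (n : ℕ)
    (ρ : FreeGroup (Fin n) →* GL (Fin r) ℂ), (∀ γ, IsSimpleLoop γ → Quasi (ρ γ)) →
    Irr ρ.range →
    ((N < (Finset.univ.filter fun i => ∃ z : ℂ, (finrank ℂ (Module.End.eigenspace
        (Matrix.mulVecLin (ρ (FreeGroup.of i) : Matrix (Fin r) (Fin r) ℂ)) z)).Coprime r).card ∨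
      (r.Prime ∧ N < (Finset.univ.filter fun i => ∀ z : ℂ,
        (ρ (FreeGroup.of i) : Matrix (Fin r) (Fin r) ℂ) ≠ z • 1).card)) → VirtAb ρ.range) ∧
    ∃ (S : Finset (Fin n)) (H : Subgroup (FreeGroup (Fin n))) (d e : ℕ) (α : H →* GL (Fin d) ℂ)
      (β : H →* GL (Fin e) ℂ),
      S.card ≤ N ∧ IndTensor ρ H β α ∧ Finite α.range ∧
      Subgroup.normalClosure {x | ∃ i ∉ S, x = FreeGroup.of i} ≤ β.ker.map H.subtype ∧
      (∀ (h : H) (g γ : FreeGroup (Fin n)) (k : ℕ), IsSimpleLoop γ →
        (h : FreeGroup (Fin n)) = g * γ ^ k * g⁻¹ → Quasi (β h)) ∧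
      (∀ i ∉ S, ∀ z : ℂ, e ∣ finrank ℂ (Module.End.eigenspace
        (Matrix.mulVecLin (ρ (FreeGroup.of i) : Matrix (Fin r) (Fin r) ℂ)) z)) ∧
      (N < (Finset.univ.filter fun i => ∀ z : ℂ,
        (ρ (FreeGroup.of i) : Matrix (Fin r) (Fin r) ℂ) ≠ z • 1).card → 2 * e ≤ r) :=
  clf_thm r hr

end Pool.Agent.Results.MP_0707f5_ag.CliffordStructure
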