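import Mathlib
import Pool.Agent.Helper12.ConstMain

/-!
# Connections with nilpotent `p`-curvatures on a constant curve come from the field of constants

`R₀ ⊆ R` are domains finitely generated over `ℤ`, with fraction fields `k ⊆ K` of characteristic
zero, and `U = Spec O` is an affine curve over `R₀` with an étale coordinate `x`. We consider a
connection `(E, ∇)` of rank `N` on the base change `U_R = Spec (R ⊗ O)`, relative to `R`: the curve
does not depend on the transcendental parameters in `K`, but the connection may.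

The theorem: if for infinitely many primes `p` the `p`-curvature of `E` is nilpotent at all closed
points of characteristic `p` of a nonempty open subset of `Spec R`, then there is a connection `W`
on `U`, defined over the fraction field `k` of `R₀`, and a horizontal surjection from `W ⊗_k K` to
`E_K`. In particular all simple subquotients of `E` are subquotients of a connection defined over
`k`, so that up to semisimplification the monodromy of `E` does not vary with the parameters.
-/

namespace Pool.Agent.Results.MP_0707f5_ag.ConstantCurve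

open Polynomial Matrix Filter TensorProduct Helper12

theorem result {R₀ R O : Type} [CommRing R₀] [IsDomain R₀] [CharZero R₀] [Algebra.FiniteType ℤ R₀]
    [CommRing R] [IsDomain R] [Algebra.FiniteType ℤ R] [CommRing O] [Algebra R₀ R] [Algebra R₀ O]
    [IsDomain (R ⊗[R₀] O)] (hR : Function.Injective (algebraMap R₀ R))
    (x : O) (hx : (aeval x : R₀[X] →ₐ[R₀] O).toRingHom.Etale)
    (dO : Derivation R₀ O O) (hdx : dO x = 1)
    (D : Derivation R (R ⊗[R₀] O) (R ⊗[R₀] O)) (hD : ∀ c, D (1 ⊗ₜ c) = 1 ⊗ₜ dO c)
    {N : ℕ} (A : Matrix (Fin N) (Fin N) (R ⊗[R₀] O)) (h : R) (hh : h ≠ 0)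
    (hnil : ∃ᶠ p : ℕ in atTop, p.Prime ∧ ∀ m : Ideal R, m.IsMaximal → (p : R) ∈ m → h ∉ m →
      ∃ n, ∀ v i, (nabVec (D.restrictScalars ℤ) A)^[p * n] v i ∈
        m.map (algebraMap R (R ⊗[R₀] O))) :
    ∃ (s : ℕ) (d : R₀) (B : Matrix (Fin s) (Fin s) O) (w : Fin s → Fin N → R ⊗[R₀] O),
      d ≠ 0 ∧
      (∀ j, algebraMap R₀ (R ⊗[R₀] O) d • nabVec (D.restrictScalars ℤ) A (w j) =
        ∑ l, ((1 : R) ⊗ₜ[R₀] B l j) • w l) ∧
      ∀ v, algebraMap R₀ (R ⊗[R₀] O) d • v ∈ Submodule.span (R ⊗[R₀] O) (Set.range w) := by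
  have hx' := etale_baseChange (R := R) x hx
  haveI : CharZero R := charZero_of_injective_algebraMap hR
  haveI := finiteType_of_etale x hx
  haveI : Module.Flat R₀ O := by
    letI : Algebra R₀[X] O := (aeval x : R₀[X] →ₐ[R₀] O).toRingHom.toAlgebra
    haveI : Algebra.Etale R₀[X] O := hx
    haveI : IsScalarTower R₀ R₀[X] O := IsScalarTower.of_algebraMap_eq (fun a => by
      rw [RingHom.algebraMap_toAlgebra]
      simp)
    haveI : Module.Flat R₀[X] O := inferInstance
    exact Module.Flat.trans R₀ R₀[X] O
  obtain ⟨f, hf, hsat⟩ := frequently_sat ((1 : R) ⊗ₜ[R₀] x) hx' D (by rw [hD, hdx]; rfl) A h hh hnil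
  exact constant_aux (FractionRing (R ⊗[R₀] O)) hR
    (algebraMap_ne_zero_of_etale ((1 : R) ⊗ₜ[R₀] x) hx') dO D hD A f hf hsat

end Pool.Agent.Results.MP_0707f5_ag.ConstantCurve
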