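import Mathlib
import Pool.Agent.Helper12.Oper
import Pool.Agent.Helper12.Descent

/-!
# Opers with nilpotent `p`-curvature on hyperelliptic curves are defined over `ℚ̄`

`R` is a domain finitely generated over `ℤ`, `K` its field of fractions (characteristic zero),
`f = ∏ (x - b_i)` with distinct `b_i ∈ R`, two of which are `0` and `1`, and `y² = f`.
We consider a normalised operator of order `r ≥ 2` of type `δ` (see `IsNormalisedOper`)

  `L = ∂ ^ r + ∑_{2 ≤ j ≤ r} (P_j + Q_j y) / f ^ j · ∂ ^ (r - j)`,  `∂ = d/dx`,  `P_j, Q_j ∈ R[x]`.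

If `n = 2 g + 1` and `δ = - 3 / 16` (so that the inequality required of `δ` says `n > 3`, which is
`g ≥ 2`), these are the opers of rank `r` on the curve `y² = f` of genus `g`, written in the
coordinate `x` and normalised by a twist by a connection of rank one: the polar term
`- δ / (x - b_i)²` is one half of the Schwarzian derivative of `(x - b_i) ^ (1/2)`, and the
conditions on the `c_i` express that infinity is a Weierstrass point of the same kind. Every
hyperelliptic curve of genus `g` over a field of characteristic zero has this form after a finite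
extension of the field and an affine change of the coordinate.

The theorem: if the reductions of `L` at all closed points of a nonempty open subset of `Spec R`
have nilpotent `p`-curvature, then the curve and the operator are defined over `ℚ̄`.
-/

namespace Pool.Agent.Results.MP_0707f5_ag.NilpotentOpersDescend

open Polynomial Helper12

universe u v

theorem result {R : Type u} {K : Type v} [CommRing R] [IsDomain R] [Algebra.FiniteType ℤ R]
    [Field K] [CharZero K] [Algebra R K] [IsFractionRing R K]
    (n r : ℕ) (hr : 2 ≤ r) (δ : ℚ) (hδ : 8 * ((n : ℚ) - 1) * δ + n < 0)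
    (b : Fin n → R) (hb : Function.Injective b) (hb0 : ∃ i, b i = 0) (hb1 : ∃ i, b i = 1)
    (P Q : ℕ → R[X]) (hL : IsNormalisedOper K r δ b P Q)
    (h : R) (hh : h ≠ 0) (hnil : NilpotentAtClosedPoints r b P Q h) :
    (∀ i, IsAlgebraic ℚ (algebraMap R K (b i))) ∧
    ∀ j, 1 ≤ j → j ≤ r → ∀ m, IsAlgebraic ℚ (algebraMap R K ((P j).coeff m)) ∧
      IsAlgebraic ℚ (algebraMap R K ((Q j).coeff m)) := by
  have hinj : Function.Injective (algebraMap R K) := IsFractionRing.injective R K
  haveI : CharZero R := ⟨fun a a' haa => by
    have := congrArg (algebraMap R K) haa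
    rw [map_natCast, map_natCast] at this
    exact_mod_cast this⟩
  obtain ⟨hP1, hQ1, c, hP2, hc0, hc1⟩ := hL
  obtain ⟨i0, hi0⟩ := hb0
  obtain ⟨i1, hi1⟩ := hb1
  have hR := nilCoef_of_nilpotent b r P Q (by omega) hb i0 h hh hnil
  have hb' : Function.Injective (fun i => algebraMap R K (b i)) := hinj.comp hb
  have hc1' : ∑ i, c i * algebraMap R K (b i) = - ((n : K) - 1) * δ := by
    rw [Finset.sum_add_distrib, Finset.sum_const, Finset.card_univ, Fintype.card_fin,
      nsmul_eq_mul] at hc1
    linear_combination hc1
  have h01 : i1 ≠ i0 := by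
    rintro rfl
    rw [hi0] at hi1
    exact zero_ne_one hi1
  have halg : ∀ i, IsAlgebraic ℚ (algebraMap R K (b i)) := by
    intro i
    by_cases hii : i = i0
    · rw [hii, hi0, map_zero]; exact isAlgebraic_zero
    · have h1 := global_thm b r P Q c δ hb' hr hδ hc0 hc1' hP2 hP1 hQ1 hR
        (i := i0) (j := i) (l := i1) (Ne.symm hii) h01
      rw [hi0, hi1, map_zero, map_one, zero_sub, zero_sub, div_neg, div_one, neg_neg] at h1
      exact h1
  refine ⟨halg, ?_⟩
  intro j hj hjr m
  exact coeff_algebraic b r P Q hb' halg hR i0 hi0 j hj hjr m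

end Pool.Agent.Results.MP_0707f5_ag.NilpotentOpersDescend
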