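import Mathlib
import Pool.Agent.Helper12.IsoDefs
import Pool.Agent.Helper12.IsoFinal
import Pool.Agent.Helper12.IsoExt

/-!
# Self-extensions with vanishing `p`-curvatures are pairwise orthogonal

`C` is a smooth curve over `Spec R`, `R` a domain finitely generated over `ℤ` with fraction field
`K` of characteristic zero (for example a localised ring of integers), covered by two affine open
subsets with étale coordinates, and `E` is a vector bundle on `C` with a connection relative to `R`.
Self-extensions of `E` are classified by `H¹_dR(C_K, End E)`. If `E` satisfies the hypothesis of the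
`p`-curvature conjecture then the conjecture predicts that the only self-extension of `E` which also
satisfies it is the trivial one.

The theorem: if `c` and `c'` are self-extensions of `E` such that for infinitely many primes `p` the
`p`-curvatures of both total spaces vanish at all closed points of characteristic `p` of a nonempty
open subset of `Spec R`, then the cup product `c ∪ c'` vanishes in `H²_dR(C_K, End E)`. So the
self-extensions which satisfy the hypothesis of the conjecture form an isotropic subspace for the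
perfect pairing `Tr(c ∪ c')` on `H¹_dR(C_K, End E)`.
-/

namespace Helper12.Kept.OrthogonalExtensions

open Polynomial Matrix Filter Helper12

theorem result {R O₁ O₂ B : Type} [CommRing R] [IsDomain R] [CharZero R] [Algebra.FiniteType ℤ R]
    [CommRing O₁] [IsDomain O₁] [CommRing O₂] [IsDomain O₂] [CommRing B]
    [Algebra R O₁] [Algebra R O₂] [Algebra R B]
    (X : TwoChartCurve R O₁ O₂ B) {N : ℕ} (E : X.Connection N)
    [Module.Finite R (Matrix (Fin N) (Fin N) B ⧸ E.deRhamRelations)]
    (c c' : TwoChartCurve.SelfExtension E) (h : R) (hh : h ≠ 0)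
    (hcurv : ∃ᶠ p : ℕ in atTop, p.Prime ∧
      ∀ m : Ideal R, m.IsMaximal → (p : R) ∈ m → h ∉ m →
        c.total.VanishingPCurvatureAt p m ∧ c'.total.VanishingPCurvatureAt p m) :
    ∃ r : R, r ≠ 0 ∧ r • c.cup c' ∈ E.deRhamRelations := by
  haveI : CharZero O₁ := ⟨fun a b hab => by
    have h1 : algebraMap R O₁ (a : R) = algebraMap R O₁ (b : R) := by
      rw [map_natCast, map_natCast]; exact hab
    by_contra hne
    have h2 : ((a : R) - (b : R)) ≠ 0 := by
      intro h0
      exact hne (Nat.cast_injective (sub_eq_zero.1 h0))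
    apply algebraMap_ne_zero_of_etale X.x₁ X.x₁_etale _ h2
    rw [map_sub, h1, sub_self]⟩
  haveI : CharZero O₂ := ⟨fun a b hab => by
    have h1 : algebraMap R O₂ (a : R) = algebraMap R O₂ (b : R) := by
      rw [map_natCast, map_natCast]; exact hab
    by_contra hne
    have h2 : ((a : R) - (b : R)) ≠ 0 := by
      intro h0
      exact hne (Nat.cast_injective (sub_eq_zero.1 h0))
    apply algebraMap_ne_zero_of_etale X.x₂ X.x₂_etale _ h2
    rw [map_sub, h1, sub_self]⟩
  haveI := finiteType_of_etale X.x₁ X.x₁_etale
  haveI := finiteType_of_etale X.x₂ X.x₂_etale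
  obtain ⟨f, hf, hsat⟩ := exists_saturation R
  have e1 := eventually_radical_of_closed R O₁ h
    (algebraMap_ne_zero_of_etale X.x₁ X.x₁_etale h hh)
  have e2 := eventually_radical_of_closed R O₂ h
    (algebraMap_ne_zero_of_etale X.x₂ X.x₂_etale h hh)
  have key : ∃ᶠ p : ℕ in atTop, p.Prime ∧ ∃ (j : ℕ)
      (z : Matrix (Fin N) (Fin N) B ⧸ E.deRhamRelations),
      f ^ j • (E.deRhamRelations.mkQ (c.cup c')) = (p : R) • z := by
    refine ((hcurv.and_eventually e1).and_eventually e2).mono ?_
    rintro p ⟨⟨⟨hp, hm⟩, h1⟩, h2⟩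
    refine ⟨hp, ?_⟩
    obtain ⟨M, hM, hmem⟩ := c.cup_mem c' p hp f
      (fun v i => hsat O₁ X.x₁ X.x₁_etale p hp _ (h1 hp _ (fun m hmax hpm hhm =>
        (hm m hmax hpm hhm).1.1 v i)))
      (fun v i => hsat O₂ X.x₂ X.x₂_etale p hp _ (h2 hp _ (fun m hmax hpm hhm =>
        (hm m hmax hpm hhm).2.2 v i)))
    obtain ⟨j, Z, hZ⟩ := exists_pow_smul _ p _ hmem
    refine ⟨j, E.deRhamRelations.mkQ Z, ?_⟩
    rw [← map_smul, ← map_smul]
    have h3 : f ^ j • c.cup c' = f ^ j • M + (p : R) • Z := by
      have h4 : (p : R) • Z = (p : B) • Z := by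
        rw [← algebraMap_smul B (p : R) Z, map_natCast]
      have h5 : f ^ j • (c.cup c' - M) = (algebraMap R B f) ^ j • (c.cup c' - M) := by
        rw [← algebraMap_smul B (f ^ j), map_pow]
      rw [h4, ← hZ, ← h5, smul_sub]
      abel
    rw [h3, map_add]
    have h4 : E.deRhamRelations.mkQ (f ^ j • M) = 0 := by
      rw [Submodule.mkQ_apply, Submodule.Quotient.mk_eq_zero]
      exact Submodule.smul_mem _ _ hM
    rw [h4, zero_add]
  obtain ⟨r, hr, hrw⟩ := torsion_of_frequently _ f hf key
  refine ⟨r, hr, ?_⟩
  rw [← map_smul, Submodule.mkQ_apply, Submodule.Quotient.mk_eq_zero] at hrw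
  exact hrw

end Helper12.Kept.OrthogonalExtensions
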