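import Pool.Agent.HZ.RedE

/-!
# Local systems on punctured spheres with simple loops of finite order

Let `ρ` be a representation of rank `r` of the fundamental group of a disc (or a sphere) with `n`
punctures such that the eigenvalues of `ρ γ` are roots of unity for all simple closed curves `γ`.
Then there is a set `S` of punctures, the number of which is bounded in terms of `r` only, such that
the local monodromies at the other punctures are in a normal subgroup of the monodromy group whose
elements have only roots of unity as eigenvalues, which is finite if `ρ` is completely reducible,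
and such that the braid group orbit of the character of `ρ` is finite if and only if that of its
restriction to the subdisc with the punctures in `S` is finite.  So the question whether these
orbits are finite is, in rank `r`, a question about discs with at most `N(r)` punctures.
-/

namespace Pool.Agent.Results.MP_0707f5_ag.PuncturedSpheres

open Pool.Agent.HZ

theorem result (r : ℕ) : ∃ N : ℕ,
    (∀ (n : ℕ) (ρ : FreeGroup (Fin n) →* GL (Fin r) ℂ),
      (∀ γ, IsSimpleLoop γ → Quasi (ρ γ)) → ∃ S : Finset (Fin n), S.card ≤ N ∧
        (∀ x ∈ Subgroup.normalClosure {x | ∃ i ∉ S, x = FreeGroup.of i}, Quasi (ρ x)) ∧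
        (CRed ρ.range →
          Finite ((Subgroup.normalClosure {x | ∃ i ∉ S, x = FreeGroup.of i}).map ρ)) ∧
        (FinOrb ρ ↔ FinOrb (ρ.comp (inc S)))) ∧
    ((∀ n ≤ N, ∀ ρ : FreeGroup (Fin n) →* GL (Fin r) ℂ,
      (∀ γ, IsSimpleLoop γ → Quasi (ρ γ)) → FinOrb ρ) →
    ∀ (n : ℕ) (ρ : FreeGroup (Fin n) →* GL (Fin r) ℂ),
      (∀ γ, IsSimpleLoop γ → Quasi (ρ γ)) → FinOrb ρ) :=
  red_fin r

end Pool.Agent.Results.MP_0707f5_ag.PuncturedSpheres
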