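import Pool.Agent.FR3.Final

/-!
# Local systems of rank three whose simple closed curves have roots of unity as eigenvalues

Let `ρ` be a representation of rank three of the fundamental group of a closed oriented surface of
genus at least two. If the eigenvalues of `ρ x` are roots of unity for all non-separating simple
closed curves `x`, then the character of `ρ` has a finite orbit under the mapping class group.
-/

namespace Pool.Agent.Results.MP_0707f5_ag.RankThree

open Helper12.Sc

theorem result (g : ℕ) (hg : 2 ≤ g) (ρ : SurfaceGroup g →* GL (Fin 3) ℂ)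
    (hρ : ∀ x : SurfaceGroup g, x.IsNonseparatingSimple → ∀ z : ℂ,
      (ρ x : Matrix (Fin 3) (Fin 3) ℂ).charpoly.IsRoot z → ∃ n : ℕ, 0 < n ∧ z ^ n = 1) :
    {χ : SurfaceGroup g → ℂ | ∃ φ : SurfaceGroup g ≃* SurfaceGroup g,
      χ = fun x => (ρ (φ x) : Matrix (Fin 3) (Fin 3) ℂ).trace}.Finite :=
  FR3.finite_orbit hg ρ hρ

end Pool.Agent.Results.MP_0707f5_ag.RankThree
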